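import Pool.Agent.Lib.RC.AL

/-!
Transfer: a solvability statement `for all c exists v : e c v = 0` with natural expressions `e`
which holds over the real numbers holds over every real closed field.
-/

open Filter Polynomial

set_option linter.unusedSectionVars false

universe u

namespace RC

/-- Artin-Lang for finite index types. -/
theorem artin_lang' {ι R S : Type u} [Finite ι] [Field R] [IsRealClosed R] [Field S]
    [IsRealClosed S] [Algebra R S] (y : ι → S) : ∃ c : ι → R,
      ∀ p : MvPolynomial ι R, MvPolynomial.aeval y p = 0 → MvPolynomial.aeval c p = 0 := by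
  obtain ⟨L, ⟨e⟩⟩ := Finite.exists_equiv_fin ι
  obtain ⟨c, hc⟩ := artin_lang L R S (y ∘ e.symm)
  refine ⟨c ∘ e, fun p hp => ?_⟩
  have h := hc (MvPolynomial.rename e p) (by
    rw [MvPolynomial.aeval_rename]
    have h1 : (y ∘ e.symm) ∘ e = y := by
      funext j
      simp
    rw [h1]
    exact hp)
  rwa [MvPolynomial.aeval_rename] at h

theorem integral_le {A : Type*} [Field A] [LinearOrder A] [IsStrictOrderedRing A] (x : A)
    (hx : IsIntegral ℚ x) : ∃ n : ℕ, x ≤ n := by
  obtain ⟨f, hf, hfx⟩ := hx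
  have h0 : aeval x f = 0 := hfx
  let M : A := 1 + ∑ i ∈ Finset.range f.natDegree, |((f.coeff i : ℚ) : A)|
  have hM1 : 1 ≤ M := le_add_of_nonneg_right (Finset.sum_nonneg fun _ _ => abs_nonneg _)
  have hxM : x ≤ M := by
    by_contra hcon
    push Not at hcon
    have hx1 : 1 ≤ x := hM1.trans hcon.le
    have hx0 : 0 < x := lt_of_lt_of_le one_pos hx1
    rw [Polynomial.aeval_eq_sum_range, Finset.sum_range_succ, hf.coeff_natDegree, one_smul] at h0
    rcases Nat.eq_zero_or_pos f.natDegree with hn | hn
    · rw [hn] at h0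
      simp at h0
    · obtain ⟨m, hm⟩ := Nat.exists_eq_succ_of_ne_zero hn.ne'
      have h1 : -(∑ i ∈ Finset.range f.natDegree, f.coeff i • x ^ i) ≤
          (∑ i ∈ Finset.range f.natDegree, |((f.coeff i : ℚ) : A)|) * x ^ m := by
        rw [← Finset.sum_neg_distrib, Finset.sum_mul]
        refine Finset.sum_le_sum fun i hi => ?_
        have h2 : x ^ i ≤ x ^ m := by
          refine pow_le_pow_right₀ hx1 ?_
          rw [Finset.mem_range, hm] at hi
          omega
        have h3 : -(f.coeff i • x ^ i) ≤ |((f.coeff i : ℚ) : A)| * x ^ i := by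
          rw [Rat.smul_def, ← neg_mul]
          exact mul_le_mul_of_nonneg_right (neg_le_abs _) (pow_nonneg hx0.le i)
        exact h3.trans (mul_le_mul_of_nonneg_left h2 (abs_nonneg _))
      have h4 : x ^ f.natDegree = x * x ^ m := by
        rw [hm, pow_succ]
        ring
      have h5 : 0 < x ^ m := pow_pos hx0 m
      have h6 : M * x ^ m < x * x ^ m := mul_lt_mul_of_pos_right hcon h5
      have h7 : M * x ^ m = x ^ m +
          (∑ i ∈ Finset.range f.natDegree, |((f.coeff i : ℚ) : A)|) * x ^ m := by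
        simp only [M]
        ring
      rw [h4] at h0
      linarith
  obtain ⟨q, hq⟩ : ∃ q : ℚ, (q : A) = M := by
    refine ⟨1 + ∑ i ∈ Finset.range f.natDegree, |f.coeff i|, ?_⟩
    simp [M]
  refine ⟨⌈q⌉₊, hxM.trans ?_⟩
  rw [← hq]
  have h8 : q ≤ (⌈q⌉₊ : ℚ) := Nat.le_ceil q
  exact_mod_cast h8

section

variable (R : Type u) [Field R] [IsRealClosed R]

/-- The real algebraic numbers of `R` embed in the real numbers. -/
theorem exists_hom_real : ∃ _ : algebraicClosure ℚ R →+* ℝ, IsRealClosed (algebraicClosure ℚ R) := by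
  have h1 := realClosed_algebraicClosure ℚ R
  obtain ⟨_, _⟩ := exists_order (algebraicClosure ℚ R)
  have : Archimedean (algebraicClosure ℚ R) := archimedean_iff_nat_le.2 fun x => by
    apply integral_le x
    exact (algebraicClosure.isAlgebraic ℚ R).isAlgebraic x |>.isIntegral
  exact ⟨(ConditionallyCompleteLinearOrderedField.inducedOrderRingHom
    (algebraicClosure ℚ R) ℝ).toRingHom, h1⟩

/-- Every real closed field embeds in an ultrapower of the real numbers. -/
theorem exists_up : ∃ (U : Ultrafilter (Finset R)), Nonempty (R →+* Up U ℝ) := by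
  classical
  obtain ⟨ρ, _⟩ := exists_hom_real R
  have h1 : ∀ s : Finset R, ∃ τ : R → ℝ, ∀ p : MvPolynomial s ℤ,
      MvPolynomial.aeval (fun j : s => (j : R)) p = 0 →
        MvPolynomial.aeval (fun j : s => τ j) p = 0 := by
    intro s
    obtain ⟨c, hc⟩ := artin_lang' (ι := s) (R := algebraicClosure ℚ R) (S := R) fun j => (j : R)
    refine ⟨fun r => if h : r ∈ s then ρ (c ⟨r, h⟩) else 0, fun p hp => ?_⟩
    have h2 := hc (MvPolynomial.map (algebraMap ℤ (algebraicClosure ℚ R)) p) (by
      rw [MvPolynomial.aeval_map_algebraMap]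
      exact hp)
    rw [MvPolynomial.aeval_map_algebraMap] at h2
    have h3 := congrArg ρ.toIntAlgHom h2
    rw [map_zero, MvPolynomial.comp_aeval_apply] at h3
    rw [← h3]
    congr 2
    funext j
    simp
  choose τ hτ using h1
  let U : Ultrafilter (Finset R) := Ultrafilter.of atTop
  have hU : ∀ t : Finset R, ∀ᶠ s in (U : Filter (Finset R)), t ⊆ s := fun t =>
    (Ultrafilter.of_le atTop) (eventually_ge_atTop t)
  refine ⟨U, ⟨{ toFun := fun r => Up.mk U ℝ fun s => τ s r
                map_one' := ?_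
                map_mul' := fun x y => ?_
                map_zero' := ?_
                map_add' := fun x y => ?_ }⟩⟩
  · rw [← map_one (Up.mk U ℝ), Up.mk_eq]
    filter_upwards [hU {1}] with s hs
    have h2 := hτ s (MvPolynomial.X ⟨1, hs (by simp)⟩ - 1) (by simp)
    simpa [sub_eq_zero] using h2
  · rw [← map_mul (Up.mk U ℝ), Up.mk_eq]
    filter_upwards [hU {x, y, x * y}] with s hs
    have h2 := hτ s (MvPolynomial.X ⟨x * y, hs (by simp)⟩ -
      MvPolynomial.X ⟨x, hs (by simp)⟩ * MvPolynomial.X ⟨y, hs (by simp)⟩) (by simp)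
    simpa [sub_eq_zero] using h2
  · rw [← map_zero (Up.mk U ℝ), Up.mk_eq]
    filter_upwards [hU {0}] with s hs
    have h2 := hτ s (MvPolynomial.X ⟨0, hs (by simp)⟩) (by simp)
    simpa using h2
  · rw [← map_add (Up.mk U ℝ), Up.mk_eq]
    filter_upwards [hU {x, y, x + y}] with s hs
    have h2 := hτ s (MvPolynomial.X ⟨x + y, hs (by simp)⟩ -
      (MvPolynomial.X ⟨x, hs (by simp)⟩ + MvPolynomial.X ⟨y, hs (by simp)⟩)) (by simp)
    simpa [sub_eq_zero] using h2

end

theorem realClosed_real : IsRealClosed ℝ := by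
  have key : ∀ f : ℝ[X], Odd f.natDegree → 0 < f.leadingCoeff → ∃ x, f.eval x = 0 := by
    intro f hf hl
    have hn : 0 < f.natDegree := hf.pos
    have hd : 0 < f.degree := Polynomial.natDegree_pos_iff_degree_pos.1 hn
    have h1 := Polynomial.tendsto_atTop_of_leadingCoeff_nonneg f hd hl.le
    have h2 : (f.comp (-X)).natDegree = f.natDegree := by
      rw [Polynomial.natDegree_comp, Polynomial.natDegree_neg, Polynomial.natDegree_X, mul_one]
    have h3 : (f.comp (-X)).leadingCoeff = -f.leadingCoeff := by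
      rw [Polynomial.leadingCoeff_comp (by simp), Polynomial.leadingCoeff_neg,
        Polynomial.leadingCoeff_X, hf.neg_one_pow]
      ring
    have h4 : 0 < (f.comp (-X)).degree :=
      Polynomial.natDegree_pos_iff_degree_pos.1 (by rw [h2]; exact hn)
    have h5 := Polynomial.tendsto_atBot_of_leadingCoeff_nonpos _ h4 (by rw [h3]; linarith)
    obtain ⟨a, ha⟩ := (h1.eventually (eventually_ge_atTop 0)).exists
    obtain ⟨b, hb⟩ := (h5.eventually (eventually_le_atBot 0)).exists
    have h6 : (f.comp (-X)).eval b = f.eval (-b) := by simp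
    rw [h6] at hb
    exact mem_range_of_exists_le_of_exists_ge f.continuous ⟨-b, hb⟩ ⟨a, ha⟩
  refine IsRealClosed.of_linearOrderedField
    (fun {x} hx => ⟨√x, (Real.mul_self_sqrt hx).symm⟩) (fun {f} hf => ?_)
  have hf0 : f.leadingCoeff ≠ 0 := by
    rw [Ne, Polynomial.leadingCoeff_eq_zero]
    rintro rfl
    simp at hf
  rcases lt_or_gt_of_ne hf0 with h | h
  · obtain ⟨x, hx⟩ := key (-f) (by rwa [Polynomial.natDegree_neg])
      (by rw [Polynomial.leadingCoeff_neg]; linarith)
    refine ⟨x, ?_⟩
    rw [Polynomial.eval_neg] at hx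
    exact neg_eq_zero.1 hx
  · exact key f hf h

/-- Transfer from the real numbers to all real closed fields. -/
theorem transfer {L J : Type*} {V : Type} [Finite V]
    (e : ∀ (A : Type) [CommRing A], (L → A) → (V → A) → J → A)
    (he : ∀ (A B : Type) [CommRing A] [CommRing B] (φ : A →+* B) (c : L → A) (v : V → A) (j : J),
      φ (e A c v j) = e B (fun l => φ (c l)) (fun k => φ (v k)) j)
    (hR : ∀ c : L → ℝ, ∃ v : V → ℝ, ∀ j, e ℝ c v j = 0)
    (R : Type) [Field R] [IsRealClosed R] (c : L → R) : ∃ v : V → R, ∀ j, e R c v j = 0 := by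
  obtain ⟨U, ⟨τ⟩⟩ := exists_up R
  let : Algebra R (Up U ℝ) := τ.toAlgebra
  have hreal := realClosed_real
  choose f hf using fun l => Up.mk_surj (τ (c l))
  choose v hv using fun i => hR fun l => f l i
  have h1 : ∀ j, e (Finset R → ℝ) f (fun k i => v i k) j = 0 := by
    intro j
    funext i
    have h2 := he (Finset R → ℝ) ℝ (Pi.evalRingHom _ i) f (fun k i => v i k) j
    exact h2.trans (hv i j)
  have h2 : ∀ j, e (Up U ℝ) (fun l => τ (c l)) (fun k => Up.mk U ℝ fun i => v i k) j = 0 := by
    intro j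
    have h3 := he (Finset R → ℝ) (Up U ℝ) (Up.mk U ℝ) f (fun k i => v i k) j
    rw [h1, map_zero] at h3
    simp_rw [hf] at h3
    exact h3.symm
  obtain ⟨w, hw⟩ := artin_lang' (R := R) (S := Up U ℝ) fun k => Up.mk U ℝ fun i => v i k
  refine ⟨w, fun j => ?_⟩
  have h3 := hw (e (MvPolynomial V R) (fun l => MvPolynomial.C (c l)) MvPolynomial.X j) (by
    have h4 := he (MvPolynomial V R) (Up U ℝ)
      (MvPolynomial.aeval fun k => Up.mk U ℝ fun i => v i k : MvPolynomial V R →ₐ[R] _).toRingHom
      (fun l => MvPolynomial.C (c l)) MvPolynomial.X j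
    refine Eq.trans h4 ?_
    rw [← h2 j]
    congr 1
    · funext l
      simp
      rfl
    · funext k
      simp)
  have h4 := he (MvPolynomial V R) R (MvPolynomial.aeval w : MvPolynomial V R →ₐ[R] _).toRingHom
      (fun l => MvPolynomial.C (c l)) MvPolynomial.X j
  have h5 := h4.symm.trans h3
  rw [← h5]
  congr 1
  · funext l
    simp
  · funext k
    simp

end RC
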