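import Pool.Agent.Lib.RC.Cut

/-!
The theorem of Artin and Lang: finitely many elements of a real closed extension of a real closed
field specialise to points over the base field.
-/

open Filter Polynomial

set_option linter.unusedSectionVars false

universe u

namespace RC

section one

variable {R S : Type*} [Field R] [IsRealClosed R] [Field S] [IsRealClosed S] [Algebra R S]

/-- The case of transcendence degree one. -/
theorem spz_one (F : Type*) [Field F] [Algebra R[X] F] [IsFractionRing R[X] F] [Algebra R F]
    [IsScalarTower R R[X] F] [Algebra F S] [IsScalarTower R F S] {ι : Type*} [Finite ι]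
    (z : ι → S) (hz : ∀ j, IsAlgebraic F (z j)) :
    ∃ c : ι → R, ∀ p : MvPolynomial ι R, MvPolynomial.aeval z p = 0 →
      MvPolynomial.aeval c p = 0 := by
  obtain ⟨_, _⟩ := exists_order R
  obtain ⟨_, _⟩ := exists_order S
  let t : S := algebraMap F S (algebraMap R[X] F X)
  have ht : ∀ g : R[X], aeval t g = algebraMap F S (algebraMap R[X] F g) := by
    intro g
    have h1 : (aeval t : R[X] →ₐ[R] S).toRingHom =
        (algebraMap F S).comp (algebraMap R[X] F) := by
      refine Polynomial.ringHom_ext (fun a => ?_) ?_
      · simp only [AlgHom.toRingHom_eq_coe, RingHom.coe_coe, aeval_C, RingHom.comp_apply]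
        rw [IsScalarTower.algebraMap_apply R F S, IsScalarTower.algebraMap_apply R R[X] F]
        rfl
      · simp [t]
    exact RingHom.congr_fun h1 g
  have ht0 : ∀ g : R[X], g ≠ 0 → aeval t g ≠ 0 := by
    intro g hg h
    rw [ht, map_eq_zero_iff _ (algebraMap F S).injective,
      map_eq_zero_iff _ (IsFractionRing.injective R[X] F)] at h
    exact hg h
  obtain ⟨U, hU⟩ := exists_cut (R := R) t
  have hsg := fun g : R[X] => eventually_sign (S := S) (t := t) hU g
  let ψ : R[X] →+* Up U R := (Up.mk U R).comp (RingHom.pi fun a => Polynomial.evalRingHom a)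
  have hψ : ∀ g : R[X], ψ g = Up.mk U R fun a => g.eval a := fun _ => rfl
  have hinj : Function.Injective ψ := by
    rw [injective_iff_map_eq_zero]
    intro g hg
    by_contra hg0
    rw [hψ, Up.mk_eq_zero] at hg
    rcases lt_or_gt_of_ne (ht0 g hg0) with h | h
    · obtain ⟨a, ha, hb⟩ := (hg.and ((hsg g).2 h)).exists
      rw [ha] at hb
      exact lt_irrefl _ hb
    · obtain ⟨a, ha, hb⟩ := (hg.and ((hsg g).1 h)).exists
      rw [ha] at hb
      exact lt_irrefl _ hb
  let : Algebra F (Up U R) := (IsFractionRing.lift (K := F) hinj).toAlgebra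
  have hF : ∀ g : R[X], algebraMap F (Up U R) (algebraMap R[X] F g) = ψ g :=
    IsFractionRing.lift_algebraMap hinj
  have hT : IsScalarTower R F (Up U R) := by
    refine IsScalarTower.of_algebraMap_eq fun r => ?_
    rw [IsScalarTower.algebraMap_apply R R[X] F, hF, hψ, Up.algebraMap_eq]
    congr 1
    funext a
    simp
  have hchar : CharZero F := charZero_of_injective_algebraMap (algebraMap R F).injective
  -- comparison of the signs
  have hcmp : ∀ x : F, IsSquare (algebraMap F S x) → IsSquare (algebraMap F (Up U R) x) := by
    intro x hx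
    obtain ⟨g, h, hh, hgh⟩ := IsFractionRing.div_surjective (A := R[X]) x
    have hh0 : h ≠ 0 := nonZeroDivisors.ne_zero hh
    have hhF : algebraMap R[X] F h ≠ 0 := by
      rw [Ne, map_eq_zero_iff _ (IsFractionRing.injective R[X] F)]
      exact hh0
    have h1 : algebraMap R[X] F (g * h) = x * (algebraMap R[X] F h * algebraMap R[X] F h) := by
      rw [map_mul, ← hgh]
      field_simp
    have h2 : 0 ≤ aeval t (g * h) := by
      rw [IsRealClosed.nonneg_iff_isSquare, ht, h1, map_mul, map_mul]
      exact hx.mul ⟨_, rfl⟩
    have h3 : IsSquare (ψ (g * h)) := by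
      rcases h2.eq_or_lt with h0 | h0
      · have h4 : g * h = 0 := by
          by_contra h5
          exact ht0 _ h5 h0.symm
        rw [h4, map_zero]
        exact ⟨0, by ring⟩
      · rcases IsRealClosed.isSquare_or_isSquare_neg (ψ (g * h)) with h4 | h4
        · exact h4
        · exfalso
          obtain ⟨w, hw⟩ := h4
          obtain ⟨w, rfl⟩ := Up.mk_surj w
          rw [hψ, ← map_neg, ← map_mul, Up.mk_eq] at hw
          obtain ⟨a, ha, hb⟩ := (hw.and ((hsg _).1 h0)).exists
          simp only [Pi.neg_apply, Pi.mul_apply] at ha
          nlinarith [mul_self_nonneg (w a)]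
    obtain ⟨w, hw⟩ := h3
    refine ⟨w / ψ h, ?_⟩
    have h4 : ψ h ≠ 0 := by
      rw [Ne, map_eq_zero_iff _ hinj]
      exact hh0
    have h5 : w * w = algebraMap F (Up U R) x * (ψ h * ψ h) := by
      rw [← hw, ← hF (g * h), h1, map_mul, map_mul, hF]
    field_simp
    rw [sq, sq, ← h5]
  -- embedding
  have hfin : FiniteDimensional F (IntermediateField.adjoin F (Set.range z)) :=
    IntermediateField.finiteDimensional_adjoin fun x hx => by
      obtain ⟨j, rfl⟩ := hx
      exact (hz j).isIntegral
  obtain ⟨φ⟩ := exists_embedding F (IntermediateField.adjoin F (Set.range z)) S (Up U R) hcmp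
    ⟨IntermediateField.val _⟩
  let z' : ι → IntermediateField.adjoin F (Set.range z) := fun j =>
    ⟨z j, IntermediateField.subset_adjoin F _ ⟨j, rfl⟩⟩
  obtain ⟨c, hc⟩ := Up.exists_point fun j => φ (z' j)
  refine ⟨c, fun p hp => hc p ?_⟩
  have hT' : IsScalarTower R (IntermediateField.adjoin F (Set.range z)) S := by
    refine IsScalarTower.of_algebraMap_eq fun r => ?_
    rw [IsScalarTower.algebraMap_apply R F S,
      IsScalarTower.algebraMap_apply R F (IntermediateField.adjoin F (Set.range z))]
    rfl
  have h1 : MvPolynomial.aeval z' p = 0 := by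
    have h2 : algebraMap (IntermediateField.adjoin F (Set.range z)) S
        (MvPolynomial.aeval z' p) = 0 := by
      rw [← MvPolynomial.aeval_algebraMap_apply]
      exact hp
    exact (map_eq_zero_iff _ (algebraMap (IntermediateField.adjoin F (Set.range z)) S).injective).1
      h2
  have h3 := congrArg (φ.restrictScalars R) h1
  rw [map_zero, MvPolynomial.comp_aeval_apply] at h3
  exact h3

end one

/-- The theorem of Artin and Lang. -/
theorem artin_lang (L : ℕ) : ∀ (R S : Type u) [Field R] [IsRealClosed R] [Field S]
    [IsRealClosed S] [Algebra R S] (y : Fin L → S), ∃ c : Fin L → R,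
      ∀ p : MvPolynomial (Fin L) R, MvPolynomial.aeval y p = 0 → MvPolynomial.aeval c p = 0 := by
  induction L with
  | zero =>
    intro R S _ _ _ _ _ y
    refine ⟨Fin.elim0, fun p hp => ?_⟩
    rw [MvPolynomial.eq_C_of_isEmpty p] at hp ⊢
    rw [MvPolynomial.aeval_C] at hp ⊢
    rw [map_eq_zero_iff _ (algebraMap R S).injective] at hp
    rw [hp, map_zero]
  | succ L ih =>
    intro R S _ _ _ _ _ y
    by_cases hint : IsIntegral R (y 0)
    · obtain ⟨r, hr⟩ := mem_of_integral (y 0) hint
      obtain ⟨c, hc⟩ := ih R S (Fin.tail y)
      refine ⟨Fin.cons r c, fun p hp => ?_⟩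
      have h1 : ∀ (A : Type u) [Field A] [Algebra R A] (w : Fin L → A),
          MvPolynomial.aeval w (MvPolynomial.aeval (Fin.cons (MvPolynomial.C r) MvPolynomial.X :
            Fin (L + 1) → MvPolynomial (Fin L) R) p) =
          MvPolynomial.aeval (Fin.cons (algebraMap R A r) w : Fin (L + 1) → A) p := by
        intro A _ _ w
        rw [MvPolynomial.comp_aeval_apply]
        congr 2
        funext j
        refine Fin.cases ?_ (fun j => ?_) j
        · simp
        · simp
      have h2 := hc _ (by
        rw [h1 S (Fin.tail y), hr]
        rw [Fin.cons_self_tail]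
        exact hp)
      rw [h1 R c] at h2
      exact h2
    · have htr : Transcendental R (y 0) := fun h => hint h.isIntegral
      have hinj : Function.Injective (aeval (y 0) : R[X] →ₐ[R] S) :=
        transcendental_iff_injective.1 htr
      have hinj' : Function.Injective (aeval (y 0) : R[X] →ₐ[R] S).toRingHom := hinj
      let : Algebra (FractionRing R[X]) S :=
        (IsFractionRing.lift (K := FractionRing R[X]) hinj').toAlgebra
      have hF : ∀ g : R[X], algebraMap (FractionRing R[X]) S
          (algebraMap R[X] (FractionRing R[X]) g) = aeval (y 0) g :=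
        IsFractionRing.lift_algebraMap hinj'
      have hT : IsScalarTower R (FractionRing R[X]) S := by
        refine IsScalarTower.of_algebraMap_eq fun r => ?_
        rw [IsScalarTower.algebraMap_apply R R[X] (FractionRing R[X]), hF]
        simp
      have hrc := realClosed_algebraicClosure (FractionRing R[X]) S
      have hy0 : y 0 ∈ algebraicClosure (FractionRing R[X]) S := by
        have h1 : y 0 = algebraMap (FractionRing R[X]) S
            (algebraMap R[X] (FractionRing R[X]) X) := by
          rw [hF, aeval_X]
        rw [h1]
        exact IntermediateField.algebraMap_mem _ _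
      obtain ⟨c', hc'⟩ := ih (algebraicClosure (FractionRing R[X]) S) S (Fin.tail y)
      let z : Fin (L + 1) → algebraicClosure (FractionRing R[X]) S := Fin.cons ⟨y 0, hy0⟩ c'
      obtain ⟨c, hc⟩ := spz_one (R := R) (FractionRing R[X]) (fun j => (z j : S)) fun j =>
        (mem_algebraicClosure_iff (F := FractionRing R[X])).1 (z j).2
      refine ⟨c, fun p hp => hc p ?_⟩
      have h1 : ∀ (A : Type u) [Field A] [Algebra R A]
          [Algebra (algebraicClosure (FractionRing R[X]) S) A]
          [IsScalarTower R (algebraicClosure (FractionRing R[X]) S) A] (w : Fin L → A),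
          MvPolynomial.aeval w (MvPolynomial.aeval
            (Fin.cons (MvPolynomial.C ⟨y 0, hy0⟩) MvPolynomial.X :
              Fin (L + 1) → MvPolynomial (Fin L) (algebraicClosure (FractionRing R[X]) S)) p) =
          MvPolynomial.aeval (Fin.cons (algebraMap (algebraicClosure (FractionRing R[X]) S) A
            ⟨y 0, hy0⟩) w : Fin (L + 1) → A) p := by
        intro A _ _ _ _ w
        have h2 := MvPolynomial.comp_aeval_apply (R := R)
          (Fin.cons (MvPolynomial.C ⟨y 0, hy0⟩) MvPolynomial.X :
              Fin (L + 1) → MvPolynomial (Fin L) (algebraicClosure (FractionRing R[X]) S))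
          ((MvPolynomial.aeval w : MvPolynomial (Fin L)
            (algebraicClosure (FractionRing R[X]) S) →ₐ[_] A).restrictScalars R) p
        refine Eq.trans h2 ?_
        congr 2
        funext j
        refine Fin.cases ?_ (fun j => ?_) j
        · simp
        · simp
      have hT' : IsScalarTower R (algebraicClosure (FractionRing R[X]) S) S := by
        refine IsScalarTower.of_algebraMap_eq fun r => ?_
        rw [IsScalarTower.algebraMap_apply R (FractionRing R[X]) S,
          IsScalarTower.algebraMap_apply R (FractionRing R[X])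
            (algebraicClosure (FractionRing R[X]) S)]
        rfl
      have h2 := hc' (MvPolynomial.aeval
            (Fin.cons (MvPolynomial.C ⟨y 0, hy0⟩) MvPolynomial.X :
              Fin (L + 1) → MvPolynomial (Fin L) (algebraicClosure (FractionRing R[X]) S)) p) (by
        rw [h1 S (Fin.tail y)]
        have h3 : algebraMap (algebraicClosure (FractionRing R[X]) S) S ⟨y 0, hy0⟩ = y 0 := rfl
        rw [h3, Fin.cons_self_tail]
        exact hp)
      rw [h1 _ c'] at h2
      have h3 := congrArg (algebraMap (algebraicClosure (FractionRing R[X]) S) S) h2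
      rw [map_zero, ← MvPolynomial.aeval_algebraMap_apply] at h3
      exact h3

end RC
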