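import Mathlib

/-!
Real closed fields: the order given by the squares, square roots in `R(i)`.
-/

namespace RC

section

variable (R : Type*) [Field R] [IsRealClosed R]

theorem sq_add_sq_isSquare (x y : R) : IsSquare (x ^ 2 + y ^ 2) := by
  rcases IsRealClosed.isSquare_or_isSquare_neg (x ^ 2 + y ^ 2) with h | h
  · exact h
  · obtain ⟨z, hz⟩ := h
    by_cases hx : x = 0
    · subst hx
      exact ⟨y, by ring⟩
    · exfalso
      have h1 : IsSumSq ((y / x) * (y / x) + ((z / x) * (z / x) + 0)) :=
        IsSumSq.sq_add _ (IsSumSq.sq_add _ IsSumSq.zero)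
      refine IsSemireal.one_add_ne_zero h1 ?_
      have h2 : x ^ 2 + y ^ 2 + z * z = 0 := by rw [← hz]; ring
      field_simp
      linear_combination h2

theorem add_isSquare {a b : R} (ha : IsSquare a) (hb : IsSquare b) : IsSquare (a + b) := by
  obtain ⟨x, rfl⟩ := ha
  obtain ⟨y, rfl⟩ := hb
  have := sq_add_sq_isSquare R x y
  rwa [sq, sq] at this

theorem eq_zero_of_isSquare_neg {a : R} (ha : IsSquare a) (hb : IsSquare (-a)) : a = 0 := by
  obtain ⟨x, rfl⟩ := ha
  obtain ⟨y, hy⟩ := hb
  by_contra h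
  have hx : x ≠ 0 := by
    rintro rfl
    simp at h
  have h1 : IsSumSq ((y / x) * (y / x) + 0) := IsSumSq.sq_add _ IsSumSq.zero
  refine IsSemireal.one_add_ne_zero h1 ?_
  field_simp
  linear_combination -hy

theorem exists_order : ∃ _ : LinearOrder R, IsStrictOrderedRing R := by
  classical
  let L : LinearOrder R :=
    { le := fun x y => IsSquare (y - x)
      le_refl := fun x => by
        show IsSquare (x - x)
        rw [sub_self]
        exact ⟨0, by ring⟩
      le_trans := fun x y z hxy hyz => by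
        show IsSquare (z - x)
        have := add_isSquare R hxy hyz
        rwa [show y - x + (z - y) = z - x by ring] at this
      le_antisymm := fun x y hxy hyx => by
        have h1 : IsSquare (-(y - x)) := by
          rw [neg_sub]
          exact hyx
        have := eq_zero_of_isSquare_neg R hxy h1
        exact (sub_eq_zero.1 this).symm
      le_total := fun x y => by
        rcases IsRealClosed.isSquare_or_isSquare_neg (y - x) with h | h
        · exact Or.inl h
        · right
          rwa [neg_sub] at h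
      toDecidableLE := fun _ _ => Classical.propDecidable _ }
  refine ⟨L, ?_⟩
  have hle : ∀ x y : R, x ≤ y ↔ IsSquare (y - x) := fun _ _ => Iff.rfl
  have hO : IsOrderedAddMonoid R :=
    { add_le_add_left := fun a b h c => by
        rw [hle] at h ⊢
        rwa [show b + c - (a + c) = b - a by ring] }
  have h01 : ZeroLEOneClass R := ⟨by
    rw [hle, sub_zero]
    exact ⟨1, by ring⟩⟩
  refine IsStrictOrderedRing.of_mul_pos fun a b ha hb => ?_
  refine lt_of_le_of_ne ?_ (mul_ne_zero ha.ne' hb.ne').symm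
  have h1 := ha.le
  have h2 := hb.le
  rw [hle, sub_zero] at h1 h2 ⊢
  exact h1.mul h2

end

/-- The algebra `K[i]`, also if `K` contains a square root of `-1`. -/
abbrev Cx (K : Type*) [CommRing K] := QuadraticAlgebra K (-1) 0

instance fact_cx (R : Type*) [Field R] [IsSemireal R] : Fact (∀ r : R, r ^ 2 ≠ -1 + 0 * r) := by
  refine ⟨fun r h => ?_⟩
  have h1 : IsSumSq (r * r + 0) := IsSumSq.sq_add _ IsSumSq.zero
  refine IsSemireal.one_add_ne_zero h1 ?_
  linear_combination h

theorem cx_isSquare (R : Type*) [Field R] [IsRealClosed R] (z : Cx R) : IsSquare z := by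
  obtain ⟨_, _⟩ := exists_order R
  obtain ⟨a, b⟩ := z
  obtain ⟨N', hN'⟩ := sq_add_sq_isSquare R a b
  obtain ⟨N, hN0, hN⟩ : ∃ N : R, 0 ≤ N ∧ N ^ 2 = a ^ 2 + b ^ 2 :=
    ⟨|N'|, abs_nonneg _, by rw [sq_abs, hN', sq]⟩
  have ha : |a| ≤ N := by
    refine abs_le_of_sq_le_sq ?_ hN0
    nlinarith [sq_nonneg b]
  have ha' := abs_le.1 ha
  obtain ⟨p, hp⟩ : IsSquare ((N + a) / 2) :=
    IsRealClosed.nonneg_iff_isSquare.1 (by linarith [ha'.1])
  obtain ⟨q, hq⟩ : IsSquare ((N - a) / 2) :=
    IsRealClosed.nonneg_iff_isSquare.1 (by linarith [ha'.2])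
  have h4 : (2 * p * q) ^ 2 = b ^ 2 := by
    have : (2 * p * q) ^ 2 = 4 * (p * p) * (q * q) := by ring
    rw [this, ← hp, ← hq]
    linear_combination hN
  rcases sq_eq_sq_iff_eq_or_eq_neg.1 h4 with h | h
  · refine ⟨⟨p, q⟩, ?_⟩
    ext
    · simp only [QuadraticAlgebra.re_mul]
      rw [mul_assoc, ← hq, ← hp]
      ring
    · simp only [QuadraticAlgebra.im_mul]
      linear_combination -h
  · refine ⟨⟨p, -q⟩, ?_⟩
    ext
    · simp only [QuadraticAlgebra.re_mul]
      rw [show -1 * -q * -q = -(q * q) by ring, ← hq, ← hp]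
      ring
    · simp only [QuadraticAlgebra.im_mul]
      linear_combination h

end RC
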