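import Pool.Agent.Lib.RC.Up

/-!
The cut of a transcendental element of a real closed extension; the case of transcendence degree
one of the theorem of Artin and Lang.
-/

open Filter Polynomial

set_option linter.unusedSectionVars false

namespace RC

section sign

variable {R S : Type*} [Field R] [IsRealClosed R] [Field S] [IsRealClosed S] [Algebra R S]
  [LinearOrder R] [IsStrictOrderedRing R] [LinearOrder S] [IsStrictOrderedRing S]

theorem algebraMap_nonneg {r : R} (h : 0 ≤ r) : 0 ≤ algebraMap R S r := by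
  obtain ⟨x, rfl⟩ := IsRealClosed.nonneg_iff_isSquare.1 h
  rw [map_mul]
  exact mul_self_nonneg _

theorem algebraMap_lt_iff {r s : R} : algebraMap R S r < algebraMap R S s ↔ r < s := by
  have h1 : ∀ {r s : R}, r < s → algebraMap R S r < algebraMap R S s := by
    intro r s h
    have h2 := algebraMap_nonneg (S := S) (sub_nonneg.2 h.le)
    rw [map_sub, sub_nonneg] at h2
    exact lt_of_le_of_ne h2 fun h3 => h.ne ((algebraMap R S).injective h3)
  refine ⟨fun h => ?_, h1⟩
  rcases lt_trichotomy r s with h3 | h3 | h3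
  · exact h3
  · rw [h3] at h
    exact (lt_irrefl _ h).elim
  · exact (lt_asymm h (h1 h3)).elim

/-- An ultrafilter converging to the cut of `t`. -/
theorem exists_cut (t : S) : ∃ U : Ultrafilter R, ∀ u : R,
    (algebraMap R S u < t → ∀ᶠ a in (U : Filter R), u < a) ∧
      (t < algebraMap R S u → ∀ᶠ a in (U : Filter R), a < u) := by
  classical
  let 𝒮 : Set (Set R) := {A | ∃ u : R, (algebraMap R S u < t ∧ A = Set.Ioi u) ∨
    (t < algebraMap R S u ∧ A = Set.Iio u)}
  obtain ⟨U, hU⟩ := Ultrafilter.exists_ultrafilter_of_finite_inter_nonempty 𝒮 (by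
    intro T hT
    have h1 : ∀ A : T, ∃ u : R, (algebraMap R S u < t ∧ A.1 = Set.Ioi u) ∨
      (t < algebraMap R S u ∧ A.1 = Set.Iio u) := fun A => hT A.2
    choose u hu using h1
    let V : Finset R := Finset.univ.image u
    obtain ⟨a, ha1, ha2⟩ := Order.exists_between_finsets
      (V.filter fun r => algebraMap R S r < t) (V.filter fun r => t < algebraMap R S r) (by
        intro x hx y hy
        rw [Finset.mem_filter] at hx hy
        exact (algebraMap_lt_iff (S := S)).1 (hx.2.trans hy.2))
    refine ⟨a, ?_⟩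
    rw [Set.mem_sInter]
    intro A hA
    have hV : u ⟨A, hA⟩ ∈ V := Finset.mem_image.2 ⟨_, Finset.mem_univ _, rfl⟩
    rcases hu ⟨A, hA⟩ with ⟨h2, h3⟩ | ⟨h2, h3⟩
    · have h4 : A = Set.Ioi (u ⟨A, hA⟩) := h3
      rw [h4]
      exact ha1 _ (Finset.mem_filter.2 ⟨hV, h2⟩)
    · have h4 : A = Set.Iio (u ⟨A, hA⟩) := h3
      rw [h4]
      exact ha2 _ (Finset.mem_filter.2 ⟨hV, h2⟩))
  exact ⟨U, fun u => ⟨fun h => hU ⟨u, Or.inl ⟨h, rfl⟩⟩, fun h => hU ⟨u, Or.inr ⟨h, rfl⟩⟩⟩⟩

/-- Irreducible polynomials over a real closed field. -/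
theorem irreducible_form {g : R[X]} (hg : Irreducible g) :
    (∃ c r : R, g = C c * (X - C r)) ∨
      ∃ c a b : R, b ≠ 0 ∧ g = C c * ((X - C a) ^ 2 + C b ^ 2) := by
  by_cases h1 : ∃ r, g.IsRoot r
  · left
    obtain ⟨r, hr⟩ := h1
    obtain ⟨q, hq⟩ := Polynomial.dvd_iff_isRoot.2 hr
    rcases hg.isUnit_or_isUnit hq with h | h
    · exact (Polynomial.not_isUnit_X_sub_C r h).elim
    · obtain ⟨c, _, hc⟩ := Polynomial.isUnit_iff.1 h
      exact ⟨c, r, by rw [hq, ← hc]; ring⟩
  · right
    have : Fact (Irreducible g) := ⟨hg⟩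
    have hint : IsIntegral R (AdjoinRoot.root g) := (AdjoinRoot.isAlgebraic_root hg.ne_zero).isIntegral
    obtain ⟨a, b, hab⟩ := exists_quad R (AdjoinRoot.root g) hint
    have hdvd : g ∣ (X - C a) ^ 2 + C b ^ 2 := by
      rw [← AdjoinRoot.mk_eq_zero]
      simpa using hab
    have hb : b ≠ 0 := by
      rintro rfl
      have h2 : g ∣ (X - C a) ^ 2 := by simpa using hdvd
      have h3 : g ∣ X - C a := hg.prime.dvd_of_dvd_pow h2
      obtain ⟨q, hq⟩ := h3
      rcases (Polynomial.irreducible_X_sub_C a).isUnit_or_isUnit hq with h | h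
      · exact hg.not_isUnit h
      · obtain ⟨c, hc0, hc⟩ := Polynomial.isUnit_iff.1 h
        apply h1
        refine ⟨a, ?_⟩
        have h4 := congrArg (Polynomial.eval a) hq
        rw [← hc] at h4
        simp only [eval_sub, eval_X, eval_C, sub_self, eval_mul] at h4
        have h5 := hc0.ne_zero
        rcases mul_eq_zero.1 h4.symm with h | h
        · exact h
        · exact (h5 h).elim
    have hmon : ((X - C a) ^ 2 + C b ^ 2 : R[X]).Monic := by
      have h2 : ((X - C a) ^ 2 : R[X]).Monic := (monic_X_sub_C a).pow 2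
      refine h2.add_of_left ?_
      rw [← C_pow]
      refine lt_of_le_of_lt degree_C_le ?_
      rw [degree_pow, degree_X_sub_C]
      norm_num
    have hirr : Irreducible ((X - C a) ^ 2 + C b ^ 2 : R[X]) := by
      have hd : ((X - C a) ^ 2 + C b ^ 2 : R[X]).natDegree = 2 := by
        have : ((X - C a) ^ 2 + C b ^ 2 : R[X]) = X ^ 2 + C (-2 * a) * X + C (a ^ 2 + b ^ 2) := by
          simp only [C_add, C_mul, C_pow, C_neg]
          have h2 : (C 2 : R[X]) = 2 := rfl
          rw [h2]
          ring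
        rw [this]
        compute_degree!
      rw [Polynomial.irreducible_iff_roots_eq_zero_of_degree_le_three (by omega) (by omega)]
      rw [Multiset.eq_zero_iff_forall_notMem]
      intro r hr
      rw [mem_roots hmon.ne_zero, IsRoot.def] at hr
      simp only [eval_add, eval_pow, eval_sub, eval_X, eval_C] at hr
      have : 0 < b ^ 2 := by positivity
      nlinarith [sq_nonneg (r - a)]
    obtain ⟨q, hq⟩ := hdvd
    rcases hirr.isUnit_or_isUnit hq with h | h
    · exact (hg.not_isUnit h).elim
    · obtain ⟨c, hc0, hc⟩ := Polynomial.isUnit_iff.1 h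
      refine ⟨c⁻¹, a, b, hb, ?_⟩
      rw [hq, ← hc, mul_comm g, ← mul_assoc, ← C_mul, inv_mul_cancel₀ hc0.ne_zero, C_1, one_mul]

theorem eventually_sign {t : S} {U : Ultrafilter R}
    (hU : ∀ u : R, (algebraMap R S u < t → ∀ᶠ a in (U : Filter R), u < a) ∧
      (t < algebraMap R S u → ∀ᶠ a in (U : Filter R), a < u)) (g : R[X]) :
    (0 < aeval t g → ∀ᶠ a in (U : Filter R), 0 < g.eval a) ∧
      (aeval t g < 0 → ∀ᶠ a in (U : Filter R), g.eval a < 0) := by
  have hC : ∀ c : R, (0 < algebraMap R S c → 0 < c) ∧ (algebraMap R S c < 0 → c < 0) := by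
    intro c
    constructor
    · intro h
      rw [← map_zero (algebraMap R S)] at h
      exact algebraMap_lt_iff.1 h
    · intro h
      rw [← map_zero (algebraMap R S)] at h
      exact algebraMap_lt_iff.1 h
  -- products
  have hmul : ∀ g h : R[X],
      ((0 < aeval t g → ∀ᶠ a in (U : Filter R), 0 < g.eval a) ∧
        (aeval t g < 0 → ∀ᶠ a in (U : Filter R), g.eval a < 0)) →
      ((0 < aeval t h → ∀ᶠ a in (U : Filter R), 0 < h.eval a) ∧
        (aeval t h < 0 → ∀ᶠ a in (U : Filter R), h.eval a < 0)) →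
      ((0 < aeval t (g * h) → ∀ᶠ a in (U : Filter R), 0 < (g * h).eval a) ∧
        (aeval t (g * h) < 0 → ∀ᶠ a in (U : Filter R), (g * h).eval a < 0)) := by
    intro g h hg hh
    rw [map_mul]
    constructor
    · intro h0
      rcases mul_pos_iff.1 h0 with ⟨h1, h2⟩ | ⟨h1, h2⟩
      · filter_upwards [hg.1 h1, hh.1 h2] with a ha hb
        rw [eval_mul]
        exact mul_pos ha hb
      · filter_upwards [hg.2 h1, hh.2 h2] with a ha hb
        rw [eval_mul]
        exact mul_pos_of_neg_of_neg ha hb
    · intro h0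
      rcases mul_neg_iff.1 h0 with ⟨h1, h2⟩ | ⟨h1, h2⟩
      · filter_upwards [hg.1 h1, hh.2 h2] with a ha hb
        rw [eval_mul]
        exact mul_neg_of_pos_of_neg ha hb
      · filter_upwards [hg.2 h1, hh.1 h2] with a ha hb
        rw [eval_mul]
        exact mul_neg_of_neg_of_pos ha hb
  have hconst : ∀ c : R,
      ((0 < aeval t (C c) → ∀ᶠ a in (U : Filter R), 0 < (C c).eval a) ∧
        (aeval t (C c) < 0 → ∀ᶠ a in (U : Filter R), (C c).eval a < 0)) := by
    intro c
    rw [aeval_C]
    simp only [eval_C]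
    exact ⟨fun h => Eventually.of_forall fun _ => (hC c).1 h,
      fun h => Eventually.of_forall fun _ => (hC c).2 h⟩
  induction g using WfDvdMonoid.induction_on_irreducible with
  | zero => simp
  | unit u hu =>
    obtain ⟨c, _, rfl⟩ := Polynomial.isUnit_iff.1 hu
    exact hconst c
  | mul a i ha hi ih =>
    refine hmul i a ?_ ih
    rcases irreducible_form hi with ⟨c, r, rfl⟩ | ⟨c, p, q, hq, rfl⟩
    · refine hmul _ _ (hconst c) ?_
      have h1 : aeval t (X - C r : R[X]) = t - algebraMap R S r := by simp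
      rw [h1]
      simp only [eval_sub, eval_X, eval_C, sub_pos, sub_neg]
      exact hU r
    · refine hmul _ _ (hconst c) ?_
      have h1 : aeval t ((X - C p) ^ 2 + C q ^ 2 : R[X]) =
        (t - algebraMap R S p) ^ 2 + algebraMap R S q ^ 2 := by simp
      rw [h1]
      constructor
      · intro _
        refine Eventually.of_forall fun a => ?_
        simp only [eval_add, eval_pow, eval_sub, eval_X, eval_C]
        positivity
      · intro h2
        have : 0 ≤ (t - algebraMap R S p) ^ 2 + algebraMap R S q ^ 2 := by positivity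
        exact absurd h2 (not_lt.2 this)

end sign

end RC
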