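import Pool.Agent.Lib.RC.Bas

/-!
The field `R(i)` over a real closed field `R` is algebraically closed (proof with Galois theory).
-/

open Polynomial IntermediateField

namespace RC

/-- An extension of odd degree of a real closed field is trivial. -/
theorem odd_ext (R : Type*) [Field R] [IsRealClosed R] (F : Type*) [Field F] [Algebra R F]
    [FiniteDimensional R F] (h : Odd (Module.finrank R F)) : Module.finrank R F = 1 := by
  obtain ⟨α, hα⟩ := Field.exists_primitive_element R F
  have h1 : Module.finrank R F = (minpoly R α).natDegree := by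
    rw [← IntermediateField.adjoin.finrank (Algebra.IsIntegral.isIntegral α), hα,
      IntermediateField.finrank_top']
  rw [h1] at h ⊢
  obtain ⟨r, hr⟩ := IsRealClosed.exists_isRoot_of_odd_natDegree h
  have hirr := minpoly.irreducible (Algebra.IsIntegral.isIntegral (R := R) α)
  have h2 := Polynomial.degree_eq_one_of_irreducible_of_root hirr hr
  exact Polynomial.natDegree_eq_of_degree_eq_some h2

/-- A field of characteristic zero in which all elements are squares has no extensions of
degree two. -/
theorem quad_ext (C : Type*) [Field C] [CharZero C] (hC : ∀ z : C, IsSquare z) (F : Type*)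
    [Field F] [Algebra C F] (h : Module.finrank C F = 2) : False := by
  have hfd : FiniteDimensional C F := Module.finite_of_finrank_pos (by omega)
  have h1 : ∃ x : F, x ∉ (⊥ : IntermediateField C F) := by
    by_contra hcon
    push Not at hcon
    have h2 : (⊥ : IntermediateField C F) = ⊤ := by
      ext x
      simp [hcon x]
    have h3 : Module.finrank C (⊤ : IntermediateField C F) = 1 := by
      rw [← h2]
      exact IntermediateField.finrank_bot
    rw [IntermediateField.finrank_top'] at h3
    omega
  obtain ⟨x, hx⟩ := h1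
  have hint : IsIntegral C x := Algebra.IsIntegral.isIntegral x
  have hdeg : (minpoly C x).natDegree = 2 := by
    have h4 : (minpoly C x).natDegree ≤ 2 := by
      rw [← h]
      exact minpoly.natDegree_le x
    have h5 : (minpoly C x).natDegree ≠ 1 := by
      intro h5
      apply hx
      rw [IntermediateField.mem_bot]
      exact minpoly.natDegree_eq_one_iff.1 h5
    have h6 := minpoly.natDegree_pos hint
    omega
  have hmon := minpoly.monic hint
  have hev := minpoly.aeval C x
  have hp : minpoly C x = X ^ 2 + Polynomial.C ((minpoly C x).coeff 1) * X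
      + Polynomial.C ((minpoly C x).coeff 0) := by
    conv_lhs => rw [Polynomial.as_sum_range_C_mul_X_pow (minpoly C x), hdeg]
    have h7 : (minpoly C x).coeff 2 = 1 := by
      have := hmon.coeff_natDegree
      rwa [hdeg] at this
    rw [Finset.sum_range_succ, Finset.sum_range_succ, Finset.sum_range_one, h7]
    simp
    ring
  rw [hp] at hev
  simp only [map_add, map_pow, map_mul, Polynomial.aeval_X, Polynomial.aeval_C] at hev
  generalize (minpoly C x).coeff 1 = b at hev
  generalize (minpoly C x).coeff 0 = c at hev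
  obtain ⟨δ, hδ⟩ := hC (b ^ 2 - 4 * c)
  have h8 : (2 * x + algebraMap C F b) ^ 2 = (algebraMap C F δ) ^ 2 := by
    have h9 : (algebraMap C F δ) ^ 2 = algebraMap C F (b ^ 2 - 4 * c) := by
      rw [hδ]
      simp [sq]
    rw [h9]
    simp only [map_sub, map_pow, map_mul, map_ofNat]
    linear_combination 4 * hev
  have hF2 : (2 : F) ≠ 0 := by
    have : CharZero F := charZero_of_injective_algebraMap (algebraMap C F).injective
    exact two_ne_zero
  apply hx
  rw [IntermediateField.mem_bot]
  rcases sq_eq_sq_iff_eq_or_eq_neg.1 h8 with h9 | h9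
  · refine ⟨(δ - b) / 2, ?_⟩
    rw [map_div₀, map_sub, map_ofNat, ← h9]
    field_simp
    ring
  · refine ⟨(-δ - b) / 2, ?_⟩
    rw [map_div₀, map_sub, map_neg, map_ofNat, ← h9]
    field_simp
    ring

section

variable (R : Type*) [Field R] [IsRealClosed R]

/-- A finite Galois extension of a real closed field has degree a power of two. -/
theorem finrank_pow (L : Type*) [Field L] [Algebra R L] [FiniteDimensional R L] [IsGalois R L] :
    ∃ k, Module.finrank R L = 2 ^ k := by
  have P : Sylow 2 Gal(L/R) := default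
  have h1 := IntermediateField.finrank_fixedField_eq_card (P : Subgroup Gal(L/R))
  have h2 : Module.finrank R (fixedField (P : Subgroup Gal(L/R))) *
      Module.finrank (fixedField (P : Subgroup Gal(L/R))) L = Module.finrank R L :=
    Module.finrank_mul_finrank _ _ _
  have h3 : (P : Subgroup Gal(L/R)).index * Nat.card P = Nat.card Gal(L/R) :=
    Subgroup.index_mul_card _
  have h4 : Nat.card Gal(L/R) = Module.finrank R L := IsGalois.card_aut_eq_finrank R L
  have h5 : Module.finrank R (fixedField (P : Subgroup Gal(L/R))) =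
      (P : Subgroup Gal(L/R)).index := by
    have h6 : 0 < Nat.card P := Nat.card_pos
    refine Nat.eq_of_mul_eq_mul_right h6 ?_
    rw [h3, h4, ← h2, h1]
  have h7 : Odd (P : Subgroup Gal(L/R)).index := by
    rw [← Nat.not_even_iff_odd, even_iff_two_dvd]
    exact P.not_dvd_index
  rw [← h5] at h7
  have h8 := odd_ext R _ h7
  rw [h8, one_mul, h1, Sylow.card_eq_multiplicity] at h2
  exact ⟨_, h2.symm⟩

/-- The homomorphism from `R(i)`. -/
noncomputable def cxLift (L : Type*) [Field L] [Algebra R L] (i : L) (hi : i ^ 2 = -1) :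
    Cx R →ₐ[R] L :=
  QuadraticAlgebra.lift ⟨i, by
    rw [← sq, hi]
    simp⟩

theorem cxLift_apply (L : Type*) [Field L] [Algebra R L] (i : L) (hi : i ^ 2 = -1) (z : Cx R) :
    cxLift R L i hi z = algebraMap R L z.re + algebraMap R L z.im * i := by
  rw [cxLift, QuadraticAlgebra.lift_apply_apply]
  simp [Algebra.smul_def]

theorem galois_eq (L : Type*) [Field L] [Algebra R L] [FiniteDimensional R L] [IsGalois R L]
    (i : L) (hi : i ^ 2 = -1) (x : L) :
    ∃ a b : R, x = algebraMap R L a + algebraMap R L b * i := by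
  let C : IntermediateField R L := (cxLift R L i hi).fieldRange
  have hsq : ∀ z : C, IsSquare z := by
    rintro ⟨z, hz⟩
    obtain ⟨w, rfl⟩ := hz
    obtain ⟨v, rfl⟩ := cx_isSquare R w
    refine ⟨⟨cxLift R L i hi v, ⟨v, rfl⟩⟩, ?_⟩
    ext
    exact map_mul _ _ _
  have hchar : CharZero C := charZero_of_injective_algebraMap (algebraMap R C).injective
  obtain ⟨k, hk⟩ := finrank_pow R L
  have h1 : Module.finrank R C * Module.finrank C L = Module.finrank R L :=
    Module.finrank_mul_finrank _ _ _
  have h2 : Module.finrank C L ∣ 2 ^ k := ⟨Module.finrank R C, by rw [← hk, ← h1, mul_comm]⟩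
  obtain ⟨m, hm, hm2⟩ := (Nat.dvd_prime_pow Nat.prime_two).1 h2
  have hm0 : m = 0 := by
    by_contra hm0
    obtain ⟨m', rfl⟩ := Nat.exists_eq_succ_of_ne_zero hm0
    have h3 : Nat.card Gal(L/C) = 2 ^ (m' + 1) := by
      rw [IsGalois.card_aut_eq_finrank C L, hm2]
    obtain ⟨H, hH⟩ := Sylow.exists_subgroup_card_pow_prime (G := Gal(L/C)) 2 (n := m')
      (by rw [h3]; exact pow_dvd_pow 2 (Nat.le_succ m'))
    have h4 := IntermediateField.finrank_fixedField_eq_card H
    have h5 : Module.finrank C (fixedField H) * Module.finrank (fixedField H) L =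
        Module.finrank C L := Module.finrank_mul_finrank _ _ _
    rw [h4, hH, hm2, pow_succ] at h5
    have h6 : Module.finrank C (fixedField H) = 2 := by
      have h7 : 0 < 2 ^ m' := by positivity
      refine Nat.eq_of_mul_eq_mul_right h7 ?_
      rw [h5, mul_comm]
    exact quad_ext C hsq _ h6
  rw [hm0, pow_zero] at hm2
  have h7 : (⊥ : IntermediateField C L) = ⊤ :=
    IntermediateField.bot_eq_top_iff_finrank_eq_one.2 hm2
  have h8 : x ∈ (⊥ : IntermediateField C L) := by
    rw [h7]
    exact IntermediateField.mem_top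
  obtain ⟨⟨y, hy⟩, hx⟩ := IntermediateField.mem_bot.1 h8
  obtain ⟨z, rfl⟩ := hy
  refine ⟨z.re, z.im, ?_⟩
  rw [← hx]
  exact cxLift_apply R L i hi z

/-- An algebraic element of an extension field is a zero of `(X - a)^2 + b^2`. -/
theorem exists_quad {E : Type*} [Field E] [Algebra R E] (x : E) (hx : IsIntegral R x) :
    ∃ a b : R, (x - algebraMap R E a) ^ 2 + algebraMap R E b ^ 2 = 0 := by
  let f : R[X] := minpoly R x * (X ^ 2 + 1)
  have hq : (X ^ 2 + 1 : R[X]) ≠ 0 := by
    intro h
    have := congrArg (Polynomial.eval 0) h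
    simp at this
  have hf0 : f ≠ 0 := mul_ne_zero (minpoly.ne_zero hx) hq
  have hn : Normal R f.SplittingField := Normal.of_isSplittingField f
  have hfd : FiniteDimensional R f.SplittingField :=
    Polynomial.IsSplittingField.finiteDimensional _ f
  have hG : IsGalois R f.SplittingField := ⟨⟩
  have hsp : (f.map (algebraMap R f.SplittingField)).Splits :=
    Polynomial.SplittingField.splits f
  have hmap0 : f.map (algebraMap R f.SplittingField) ≠ 0 := Polynomial.map_ne_zero hf0
  have hsp1 : ((minpoly R x).map (algebraMap R f.SplittingField)).Splits :=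
    Polynomial.Splits.of_dvd hsp hmap0 (Polynomial.map_dvd _ (Dvd.intro _ rfl))
  have hsp2 : ((X ^ 2 + 1 : R[X]).map (algebraMap R f.SplittingField)).Splits :=
    Polynomial.Splits.of_dvd hsp hmap0 (Polynomial.map_dvd _ (Dvd.intro_left _ rfl))
  obtain ⟨y, hy⟩ := hsp1.exists_eval_eq_zero (by
    rw [Polynomial.degree_map]
    exact (Polynomial.degree_pos_of_ne_zero_of_nonunit (minpoly.ne_zero hx)
      (minpoly.irreducible hx).not_isUnit).ne')
  obtain ⟨i, hi⟩ := hsp2.exists_eval_eq_zero (by
    rw [Polynomial.degree_map]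
    rw [show (X ^ 2 + 1 : R[X]) = X ^ 2 + Polynomial.C 1 by simp,
      Polynomial.degree_X_pow_add_C (by norm_num)]
    norm_num)
  rw [Polynomial.eval_map_algebraMap] at hy hi
  have hi2 : i ^ 2 = -1 := by
    have : i ^ 2 + 1 = 0 := by simpa using hi
    linear_combination this
  obtain ⟨a, b, hab⟩ := galois_eq R _ i hi2 y
  refine ⟨a, b, ?_⟩
  have h1 : minpoly R y = minpoly R x :=
    (minpoly.eq_of_irreducible_of_monic (minpoly.irreducible hx) hy (minpoly.monic hx)).symm
  have h2 : minpoly R y ∣ (X - Polynomial.C a) ^ 2 + Polynomial.C b ^ 2 := by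
    apply minpoly.dvd
    simp only [map_add, map_pow, map_sub, Polynomial.aeval_X, Polynomial.aeval_C]
    rw [hab]
    linear_combination algebraMap R f.SplittingField b ^ 2 * hi2
  rw [h1] at h2
  obtain ⟨g, hg⟩ := h2
  have h3 := congrArg (Polynomial.aeval x) hg
  simpa using h3

/-- The algebra `R(i)` over a real closed field is algebraically closed. -/
instance cx_algClosed : IsAlgClosed (Cx R) := by
  refine IsAlgClosed.of_exists_root _ fun p hm hirr => ?_
  have hdeg : p.degree ≠ 0 := (Polynomial.degree_pos_of_ne_zero_of_nonunit hm.ne_zero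
      hirr.not_isUnit).ne'
  have hR : Algebra.IsIntegral R (Cx R) := Algebra.IsIntegral.of_finite R (Cx R)
  obtain ⟨x, hx⟩ : ∃ x : AlgebraicClosure (Cx R), aeval x p = 0 :=
    IsAlgClosed.exists_aeval_eq_zero _ p hdeg
  have hint : IsIntegral R x := by
    have h1 : IsIntegral (Cx R) x := ⟨p, hm, by rwa [← Polynomial.aeval_def]⟩
    exact isIntegral_trans x h1
  obtain ⟨a, b, hab⟩ := exists_quad R x hint
  have hw : (algebraMap (Cx R) (AlgebraicClosure (Cx R)) ⟨0, 1⟩) ^ 2 = -1 := by
    rw [← map_pow, ← map_one (algebraMap (Cx R) (AlgebraicClosure (Cx R))), ← map_neg]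
    congr 1
    ext <;> simp [sq, QuadraticAlgebra.re_one, QuadraticAlgebra.im_one]
  have h2 : (x - algebraMap R _ a) ^ 2 =
      (algebraMap R (AlgebraicClosure (Cx R)) b *
        algebraMap (Cx R) (AlgebraicClosure (Cx R)) ⟨0, 1⟩) ^ 2 := by
    rw [mul_pow, hw]
    linear_combination hab
  have h3 : ∃ z : Cx R, algebraMap (Cx R) (AlgebraicClosure (Cx R)) z = x := by
    rcases sq_eq_sq_iff_eq_or_eq_neg.1 h2 with h | h
    · refine ⟨algebraMap R (Cx R) a + algebraMap R (Cx R) b * ⟨0, 1⟩, ?_⟩
      rw [map_add, map_mul, ← IsScalarTower.algebraMap_apply, ← IsScalarTower.algebraMap_apply,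
        ← h]
      ring
    · refine ⟨algebraMap R (Cx R) a - algebraMap R (Cx R) b * ⟨0, 1⟩, ?_⟩
      rw [map_sub, map_mul, ← IsScalarTower.algebraMap_apply, ← IsScalarTower.algebraMap_apply]
      linear_combination -h
  obtain ⟨z, rfl⟩ := h3
  refine ⟨z, ?_⟩
  have h4 : algebraMap (Cx R) (AlgebraicClosure (Cx R)) (p.eval z) = 0 := by
    rw [← Polynomial.aeval_algebraMap_apply_eq_algebraMap_eval]
    exact hx
  exact (map_eq_zero_iff _ (algebraMap (Cx R) (AlgebraicClosure (Cx R))).injective).1 h4

end

end RC
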