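import Pool.Agent.Lib.RC.Fta

/-!
Algebraic elements over real closed fields, relative algebraic closures, ultrapowers.
-/

open Polynomial

namespace RC

theorem isSumSq_map {A B : Type*} [Field A] [Field B] (φ : A →+* B) {s : A} (hs : IsSumSq s) :
    IsSumSq (φ s) := by
  induction hs with
  | zero => rw [map_zero]; exact IsSumSq.zero
  | sq_add a hs ih =>
    rw [map_add, map_mul]
    exact IsSumSq.sq_add _ ih

theorem semireal_of_hom {A B : Type*} [Field A] [Field B] [IsSemireal B] (φ : A →+* B) :
    IsSemireal A := by
  refine ⟨fun {s} hs h => ?_⟩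
  refine IsSemireal.one_add_ne_zero (isSumSq_map φ hs) ?_
  rw [← map_one φ, ← map_add, h, map_zero]

/-- A real closed field has no proper algebraic semireal extensions. -/
theorem mem_of_integral {R S : Type*} [Field R] [IsRealClosed R] [Field S] [IsSemireal S]
    [Algebra R S] (x : S) (hx : IsIntegral R x) : ∃ a : R, algebraMap R S a = x := by
  obtain ⟨a, b, hab⟩ := exists_quad R x hx
  refine ⟨a, ?_⟩
  by_contra hne
  have h0 : x - algebraMap R S a ≠ 0 := fun h => hne (sub_eq_zero.1 h).symm
  have h1 : IsSumSq ((algebraMap R S b / (x - algebraMap R S a)) *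
    (algebraMap R S b / (x - algebraMap R S a)) + 0) := IsSumSq.sq_add _ IsSumSq.zero
  refine IsSemireal.one_add_ne_zero h1 ?_
  field_simp
  linear_combination hab

/-- The relative algebraic closure of a subfield of a real closed field is real closed. -/
theorem realClosed_algebraicClosure (F S : Type*) [Field F] [Field S] [IsRealClosed S]
    [Algebra F S] : IsRealClosed (algebraicClosure F S) := by
  have hsr : IsSemireal (algebraicClosure F S) :=
    semireal_of_hom (algebraMap (algebraicClosure F S) S)
  have hmem : ∀ y : S, IsAlgebraic (algebraicClosure F S) y → y ∈ algebraicClosure F S := by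
    intro y hy
    rw [mem_algebraicClosure_iff]
    exact hy.restrictScalars F
  have hsq : ∀ x : algebraicClosure F S, IsSquare (x : S) → IsSquare x := by
    rintro x ⟨y, hy⟩
    have hy' : y ∈ algebraicClosure F S := by
      refine hmem y ⟨X ^ 2 - C x, ?_, ?_⟩
      · exact Polynomial.X_pow_sub_C_ne_zero (by norm_num) x
      · simp only [map_sub, map_pow, Polynomial.aeval_X, Polynomial.aeval_C]
        rw [sub_eq_zero, sq, ← hy]
        rfl
    exact ⟨⟨y, hy'⟩, Subtype.ext hy⟩
  refine { hsr with
    isSquare_or_isSquare_neg := fun x => ?_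
    exists_isRoot_of_odd_natDegree := fun {f} hf => ?_ }
  · rcases IsRealClosed.isSquare_or_isSquare_neg (x : S) with h | h
    · exact Or.inl (hsq x h)
    · exact Or.inr (hsq (-x) h)
  · have h1 : (f.map (algebraMap (algebraicClosure F S) S)).natDegree = f.natDegree :=
      Polynomial.natDegree_map _
    obtain ⟨y, hy⟩ := IsRealClosed.exists_isRoot_of_odd_natDegree (R := S) (by rwa [h1])
    have hy' : y ∈ algebraicClosure F S := by
      refine hmem y ⟨f, ?_, ?_⟩
      · rintro rfl
        simp at hf
      · rwa [Polynomial.IsRoot.def, Polynomial.eval_map_algebraMap] at hy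
    refine ⟨⟨y, hy'⟩, ?_⟩
    rw [Polynomial.IsRoot.def, Polynomial.eval_map_algebraMap] at hy
    have h2 : algebraMap (algebraicClosure F S) S (f.eval ⟨y, hy'⟩) = 0 := by
      rw [← Polynomial.aeval_algebraMap_apply_eq_algebraMap_eval]
      exact hy
    exact (map_eq_zero_iff _ (algebraMap (algebraicClosure F S) S).injective).1 h2

section ult

open Filter

variable {I : Type*} (U : Ultrafilter I)

private theorem germ_rep (R : Type*) (x : (U : Filter I).Germ R) : ∃ f : I → R, (f : (U : Filter I).Germ R) = x :=
  Quotient.exists_rep x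

variable (R : Type*) [Field R] [IsRealClosed R]

/-- An ultrapower of a real closed field is real closed. -/
theorem realClosed_germ : IsRealClosed ((U : Filter I).Germ R) := by
  have hss : ∀ s : (U : Filter I).Germ R, IsSumSq s →
      ∃ f : I → R, (f : (U : Filter I).Germ R) = s ∧ ∀ i, IsSumSq (f i) := by
    intro s hs
    induction hs with
    | zero => exact ⟨fun _ => 0, rfl, fun _ => IsSumSq.zero⟩
    | sq_add a hs ih =>
      obtain ⟨f, rfl, hf⟩ := ih
      obtain ⟨g, rfl⟩ := germ_rep U R a
      exact ⟨fun i => g i * g i + f i, rfl, fun i => IsSumSq.sq_add _ (hf i)⟩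
  refine
  { one_add_ne_zero := fun {s} hs h => ?_
    isSquare_or_isSquare_neg := fun x => ?_
    exists_isRoot_of_odd_natDegree := fun {f} hf => ?_ }
  · obtain ⟨f, rfl, hf⟩ := hss s hs
    have h1 : ((fun i => 1 + f i : I → R) : (U : Filter I).Germ R) = ((fun _ => 0 : I → R) :
      (U : Filter I).Germ R) := h
    rw [Germ.coe_eq] at h1
    obtain ⟨i, hi⟩ := h1.exists
    exact IsSemireal.one_add_ne_zero (hf i) hi
  · obtain ⟨f, rfl⟩ := germ_rep U R x
    have h1 : ∀ᶠ i in (U : Filter I), IsSquare (f i) ∨ IsSquare (-f i) :=
      Eventually.of_forall fun i => IsRealClosed.isSquare_or_isSquare_neg _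
    rw [Ultrafilter.eventually_or] at h1
    rcases h1 with h | h
    · left
      have h2 : ∀ i, ∃ r, IsSquare (f i) → f i = r * r := by
        intro i
        by_cases hi : IsSquare (f i)
        · obtain ⟨r, hr⟩ := hi
          exact ⟨r, fun _ => hr⟩
        · exact ⟨0, fun h => (hi h).elim⟩
      choose g hg using h2
      refine ⟨(g : (U : Filter I).Germ R), ?_⟩
      rw [← Germ.coe_mul, Germ.coe_eq]
      exact h.mono fun i hi => hg i hi
    · right
      have h2 : ∀ i, ∃ r, IsSquare (-f i) → -f i = r * r := by
        intro i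
        by_cases hi : IsSquare (-f i)
        · obtain ⟨r, hr⟩ := hi
          exact ⟨r, fun _ => hr⟩
        · exact ⟨0, fun h => (hi h).elim⟩
      choose g hg using h2
      refine ⟨(g : (U : Filter I).Germ R), ?_⟩
      rw [← Germ.coe_mul, ← Germ.coe_neg, Germ.coe_eq]
      exact h.mono fun i hi => hg i hi
  · have h1 := fun k => germ_rep U R (f.coeff k)
    choose c hc using h1
    let P : I → R[X] := fun i => ∑ k ∈ Finset.range (f.natDegree + 1), C (c k i) * X ^ k
    have hP : ∀ i, c f.natDegree i ≠ 0 → (P i).natDegree = f.natDegree := by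
      intro i hi
      have h2 : (P i).coeff f.natDegree = c f.natDegree i := by
        simp [P]
      refine le_antisymm ?_ (Polynomial.le_natDegree_of_ne_zero (by rwa [h2]))
      refine Polynomial.natDegree_sum_le_of_forall_le _ _ fun k hk => ?_
      refine (Polynomial.natDegree_C_mul_X_pow_le _ _).trans ?_
      exact Nat.lt_succ_iff.1 (Finset.mem_range.1 hk)
    have h3 : ∀ i, ∃ r, c f.natDegree i ≠ 0 → (P i).eval r = 0 := by
      intro i
      by_cases hi : c f.natDegree i = 0
      · exact ⟨0, fun h => (h hi).elim⟩
      · obtain ⟨r, hr⟩ := IsRealClosed.exists_isRoot_of_odd_natDegree (f := P i)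
          (by rw [hP i hi]; exact hf)
        exact ⟨r, fun _ => hr⟩
    choose r hr using h3
    refine ⟨(r : (U : Filter I).Germ R), ?_⟩
    have h4 : ∀ᶠ i in (U : Filter I), c f.natDegree i ≠ 0 := by
      rw [Ultrafilter.eventually_not]
      intro h5
      have h6 : (c f.natDegree : (U : Filter I).Germ R) = ((fun _ => 0 : I → R) :
          (U : Filter I).Germ R) := Germ.coe_eq.2 h5
      rw [hc] at h6
      have h7 : f.leadingCoeff = 0 := h6
      rw [Polynomial.leadingCoeff_eq_zero] at h7
      rw [h7] at hf
      simp at hf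
    have h5 : f.eval (r : (U : Filter I).Germ R) =
        ((fun i => (P i).eval (r i) : I → R) : (U : Filter I).Germ R) := by
      rw [Polynomial.eval_eq_sum_range]
      simp only [P, Polynomial.eval_finsetSum, Polynomial.eval_mul, Polynomial.eval_C,
        Polynomial.eval_pow, Polynomial.eval_X]
      have h6 : ((fun i => ∑ k ∈ Finset.range (f.natDegree + 1), c k i * r i ^ k : I → R) :
          (U : Filter I).Germ R) = Germ.coeRingHom (U : Filter I)
            (∑ k ∈ Finset.range (f.natDegree + 1), c k * r ^ k) := by
        show _ = ((∑ k ∈ Finset.range (f.natDegree + 1), c k * r ^ k : I → R) :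
          (U : Filter I).Germ R)
        congr 1
        funext i
        simp
      rw [h6, map_sum]
      refine Finset.sum_congr rfl fun k _ => ?_
      rw [map_mul, map_pow]
      show f.coeff k * _ = (c k : (U : Filter I).Germ R) * _
      rw [hc]
      rfl
    rw [Polynomial.IsRoot.def, h5]
    show _ = ((fun _ => 0 : I → R) : (U : Filter I).Germ R)
    rw [Germ.coe_eq]
    exact h4.mono fun i hi => hr i hi

end ult

end RC
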