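import Pool.Agent.Lib.RC.Rel

/-!
The number of embeddings of a finite extension into a real closed field depends only on the signs
in the base field (Hermite, Sylvester: signature of the trace form).
-/

set_option linter.unusedSectionVars false

namespace RC

section core

variable (F E S : Type*) [Field F] [CharZero F] [Field E] [Algebra F E] [FiniteDimensional F E]
  [Field S] [IsRealClosed S] [Algebra F S]

/-- Complex conjugation. -/
def cxConj : Cx S →ₐ[F] Cx S where
  toFun z := star z
  map_one' := star_one _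
  map_mul' x y := by rw [star_mul, mul_comm]
  map_zero' := star_zero _
  map_add' x y := star_add _ _
  commutes' r := by
    rw [IsScalarTower.algebraMap_apply F S (Cx S)]
    ext <;> simp

variable {F E S}

theorem cxConj_apply (z : Cx S) : cxConj F S z = star z := rfl

/-- Conjugate embedding. -/
def cj (σ : E →ₐ[F] Cx S) : E →ₐ[F] Cx S := (cxConj F S).comp σ

theorem cj_apply (σ : E →ₐ[F] Cx S) (x : E) : cj σ x = star (σ x) := rfl

theorem cj_cj (σ : E →ₐ[F] Cx S) : cj (cj σ) = σ := by
  ext x <;> simp [cj_apply]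

/-- The linear forms. -/
noncomputable def Lf {n : ℕ} (v : Fin n → E) (σ : E →ₐ[F] Cx S) : (Fin n → S) →ₗ[S] Cx S :=
  ∑ i, (LinearMap.proj i : (Fin n → S) →ₗ[S] S).smulRight (σ (v i))

theorem Lf_apply {n : ℕ} (v : Fin n → E) (σ : E →ₐ[F] Cx S) (s : Fin n → S) :
    Lf v σ s = ∑ i, s i • σ (v i) := by
  simp [Lf]

theorem Lf_cj {n : ℕ} (v : Fin n → E) (σ : E →ₐ[F] Cx S) (s : Fin n → S) :
    Lf v (cj σ) s = star (Lf v σ s) := by
  rw [Lf_apply, Lf_apply, star_sum]
  refine Finset.sum_congr rfl fun i _ => ?_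
  rw [cj_apply]
  ext <;> simp

theorem sum_sq {n : ℕ} (v : Fin n → E)
    (hv : ∀ i j, i ≠ j → Algebra.trace F E (v i * v j) = 0) (s : Fin n → S) :
    algebraMap S (Cx S) (∑ i, algebraMap F S (Algebra.trace F E (v i * v i)) * s i ^ 2) =
      ∑ σ : E →ₐ[F] Cx S, Lf v σ s ^ 2 := by
  have h1 : ∀ σ : E →ₐ[F] Cx S, Lf v σ s ^ 2 =
      ∑ i, ∑ j, algebraMap S (Cx S) (s i * s j) * σ (v i * v j) := by
    intro σ
    rw [Lf_apply, sq, Finset.sum_mul_sum]
    refine Finset.sum_congr rfl fun i _ => Finset.sum_congr rfl fun j _ => ?_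
    rw [Algebra.smul_def, Algebra.smul_def, map_mul, map_mul]
    ring
  simp_rw [h1]
  rw [Finset.sum_comm]
  simp_rw [Finset.sum_comm (s := (Finset.univ : Finset (E →ₐ[F] Cx S)))]
  simp_rw [← Finset.mul_sum, ← trace_eq_sum_embeddings (Cx S)]
  rw [map_sum]
  refine Finset.sum_congr rfl fun i _ => ?_
  rw [Finset.sum_eq_single i]
  · rw [IsScalarTower.algebraMap_apply F S (Cx S), ← map_mul]
    congr 1
    ring
  · intro j _ hj
    rw [hv i j hj.symm, map_zero, mul_zero]
  · intro h
    exact (h (Finset.mem_univ i)).elim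

/-- Existence of a vector killed by few real linear conditions. -/
theorem exists_vec {n : ℕ} (v : Fin n → E) (X₀ : Finset (E →ₐ[F] Cx S)) (T : Finset (Fin n))
    (h : X₀.card < T.card) (pr : Cx S →ₗ[S] S) :
    ∃ s : Fin n → S, s ≠ 0 ∧ (∀ i, i ∉ T → s i = 0) ∧ ∀ σ ∈ X₀, pr (Lf v σ s) = 0 := by
  classical
  let Φ : (Fin n → S) →ₗ[S] (X₀ → S) × ((Tᶜ : Finset (Fin n)) → S) :=
    LinearMap.prod (LinearMap.pi fun σ => pr ∘ₗ Lf v σ.1) (LinearMap.pi fun i => LinearMap.proj i.1)
  have hlt : Module.finrank S ((X₀ → S) × ((Tᶜ : Finset (Fin n)) → S)) <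
      Module.finrank S (Fin n → S) := by
    rw [Module.finrank_prod, Module.finrank_fintype_fun_eq_card,
      Module.finrank_fintype_fun_eq_card, Module.finrank_fintype_fun_eq_card]
    simp only [Fintype.card_coe, Fintype.card_fin, Finset.card_compl]
    have h2 : T.card ≤ n := by
      have := Finset.card_le_univ T
      simpa using this
    omega
  have hk := LinearMap.ker_ne_bot_of_finrank_lt (f := Φ) hlt
  obtain ⟨s, hs, hs0⟩ := Submodule.exists_mem_ne_zero_of_ne_bot hk
  rw [LinearMap.mem_ker] at hs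
  refine ⟨s, hs0, fun i hi => ?_, fun σ hσ => ?_⟩
  · have := congrFun (congrArg Prod.snd hs) ⟨i, by simpa using hi⟩
    simpa [Φ] using this
  · have := congrFun (congrArg Prod.fst hs) ⟨σ, hσ⟩
    simpa [Φ] using this

/-- Representatives of the pairs of complex embeddings. -/
theorem exists_reps : ∃ X₀ : Finset (E →ₐ[F] Cx S), (∀ σ : E →ₐ[F] Cx S, cj σ = σ ∨ σ ∈ X₀ ∨
    cj σ ∈ X₀) ∧ ∃ r, 2 * X₀.card + r = Module.finrank F E ∧
      (0 < r ↔ ∃ σ : E →ₐ[F] Cx S, cj σ = σ) := by
  classical
  let e := Fintype.equivFin (E →ₐ[F] Cx S)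
  let A : Finset (E →ₐ[F] Cx S) := Finset.univ.filter fun σ => e σ < e (cj σ)
  let B : Finset (E →ₐ[F] Cx S) := Finset.univ.filter fun σ => e (cj σ) < e σ
  let C : Finset (E →ₐ[F] Cx S) := Finset.univ.filter fun σ => cj σ = σ
  have hAB : A.card = B.card := by
    refine Finset.card_bij (fun σ _ => cj σ) ?_ ?_ ?_
    · intro σ hσ
      simp only [A, B, Finset.mem_filter, Finset.mem_univ, true_and, cj_cj] at hσ ⊢
      exact hσ
    · intro σ _ τ _ h
      have := congrArg cj h
      rwa [cj_cj, cj_cj] at this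
    · intro σ hσ
      refine ⟨cj σ, ?_, cj_cj σ⟩
      simp only [A, B, Finset.mem_filter, Finset.mem_univ, true_and, cj_cj] at hσ ⊢
      exact hσ
  have hdis1 : Disjoint A B := by
    rw [Finset.disjoint_filter]
    intro σ _ h1 h2
    exact lt_asymm h1 h2
  have hdis2 : Disjoint (A ∪ B) C := by
    rw [Finset.disjoint_left]
    intro σ h1 h2
    simp only [A, B, C, Finset.mem_union, Finset.mem_filter, Finset.mem_univ, true_and] at h1 h2
    rw [h2] at h1
    rcases h1 with h | h <;> exact lt_irrefl _ h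
  have hun : A ∪ B ∪ C = Finset.univ := by
    ext σ
    simp only [A, B, C, Finset.mem_union, Finset.mem_filter, Finset.mem_univ, true_and, iff_true]
    rcases lt_trichotomy (e σ) (e (cj σ)) with h | h | h
    · exact Or.inl (Or.inl h)
    · exact Or.inr (e.injective h).symm
    · exact Or.inl (Or.inr h)
  have hcard : (A ∪ B ∪ C).card = Module.finrank F E := by
    rw [hun, Finset.card_univ, AlgHom.card]
  rw [Finset.card_union_of_disjoint hdis2, Finset.card_union_of_disjoint hdis1, ← hAB] at hcard
  refine ⟨A, fun σ => ?_, C.card, by omega, ?_⟩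
  · have h : σ ∈ A ∪ B ∪ C := by rw [hun]; exact Finset.mem_univ σ
    simp only [A, B, C, Finset.mem_union, Finset.mem_filter, Finset.mem_univ, true_and, cj_cj]
      at h ⊢
    tauto
  · rw [Finset.card_pos]
    constructor
    · rintro ⟨σ, hσ⟩
      simp only [C, Finset.mem_filter, Finset.mem_univ, true_and] at hσ
      exact ⟨σ, hσ⟩
    · rintro ⟨σ, hσ⟩
      exact ⟨σ, by simpa [C] using hσ⟩

variable [LinearOrder S] [IsStrictOrderedRing S]

theorem re_sum_sq {n : ℕ} (v : Fin n → E)
    (hv : ∀ i j, i ≠ j → Algebra.trace F E (v i * v j) = 0) (s : Fin n → S) :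
    ∑ i, algebraMap F S (Algebra.trace F E (v i * v i)) * s i ^ 2 =
      ∑ σ : E →ₐ[F] Cx S, ((Lf v σ s).re ^ 2 - (Lf v σ s).im ^ 2) := by
  have h := congrArg (QuadraticAlgebra.reₗ (-1 : S) 0) (sum_sq (S := S) v hv s)
  have h1 : ∀ x : S, QuadraticAlgebra.reₗ (-1 : S) 0 (algebraMap S (Cx S) x) = x := by
    intro x
    simp
  rw [h1, map_sum] at h
  rw [h]
  refine Finset.sum_congr rfl fun σ _ => ?_
  rw [QuadraticAlgebra.reₗ_apply, sq, QuadraticAlgebra.re_mul]
  ring

/-- Without real embeddings at most half of the entries are positive. -/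
theorem pos_le {n : ℕ} (hn : Module.finrank F E = n) (v : Fin n → E)
    (hv : ∀ i j, i ≠ j → Algebra.trace F E (v i * v j) = 0)
    (hno : ¬ ∃ σ : E →ₐ[F] Cx S, cj σ = σ) (T : Finset (Fin n))
    (hT : ∀ i ∈ T, 0 < algebraMap F S (Algebra.trace F E (v i * v i))) : 2 * T.card ≤ n := by
  classical
  by_contra hcon
  push Not at hcon
  obtain ⟨X₀, hX, r, hr, hr0⟩ := exists_reps (F := F) (E := E) (S := S)
  have hr1 : r = 0 := by
    by_contra h
    exact hno (hr0.1 (Nat.pos_of_ne_zero h))
  obtain ⟨s, hs0, hsT, hs⟩ := exists_vec v X₀ T (by omega) (QuadraticAlgebra.reₗ (-1 : S) 0)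
  have hre : ∀ σ : E →ₐ[F] Cx S, (Lf v σ s).re = 0 := by
    intro σ
    rcases hX σ with h | h | h
    · exact (hno ⟨σ, h⟩).elim
    · exact hs σ h
    · have := hs _ h
      rw [Lf_cj, QuadraticAlgebra.reₗ_apply] at this
      simpa using this
  have h1 := re_sum_sq (S := S) v hv s
  simp only [hre] at h1
  have h2 : ∑ i, algebraMap F S (Algebra.trace F E (v i * v i)) * s i ^ 2 ≤ 0 := by
    rw [h1]
    refine Finset.sum_nonpos fun σ _ => ?_
    nlinarith [sq_nonneg (Lf v σ s).im]
  have h3 : 0 < ∑ i, algebraMap F S (Algebra.trace F E (v i * v i)) * s i ^ 2 := by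
    obtain ⟨i, hi⟩ := Function.ne_iff.1 hs0
    have hiT : i ∈ T := by
      by_contra h
      exact hi (hsT i h)
    refine Finset.sum_pos' (fun j _ => ?_) ⟨i, Finset.mem_univ i, ?_⟩
    · by_cases hj : j ∈ T
      · exact mul_nonneg (hT j hj).le (sq_nonneg _)
      · rw [hsT j hj]
        simp
    · exact mul_pos (hT i hiT) (by
        have : s i ≠ 0 := hi
        positivity)
  exact absurd h2 (not_le.2 h3)

/-- With a real embedding less than half of the entries are negative. -/
theorem neg_lt {n : ℕ} (hn : Module.finrank F E = n) (v : Fin n → E)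
    (hv : ∀ i j, i ≠ j → Algebra.trace F E (v i * v j) = 0)
    (hyes : ∃ σ : E →ₐ[F] Cx S, cj σ = σ) (T : Finset (Fin n))
    (hT : ∀ i ∈ T, algebraMap F S (Algebra.trace F E (v i * v i)) < 0) : 2 * T.card < n := by
  classical
  by_contra hcon
  push Not at hcon
  obtain ⟨X₀, hX, r, hr, hr0⟩ := exists_reps (F := F) (E := E) (S := S)
  have hr1 : 0 < r := hr0.2 hyes
  obtain ⟨s, hs0, hsT, hs⟩ := exists_vec v X₀ T (by omega) (QuadraticAlgebra.imₗ (-1 : S) 0)
  have him : ∀ σ : E →ₐ[F] Cx S, (Lf v σ s).im = 0 := by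
    intro σ
    rcases hX σ with h | h | h
    · have h1 := Lf_cj v σ s
      rw [h] at h1
      have h2 := congrArg QuadraticAlgebra.im h1
      rw [QuadraticAlgebra.im_star] at h2
      linarith
    · exact hs σ h
    · have := hs _ h
      rw [Lf_cj, QuadraticAlgebra.imₗ_apply] at this
      simpa using this
  have h1 := re_sum_sq (S := S) v hv s
  simp only [him] at h1
  have h2 : 0 ≤ ∑ i, algebraMap F S (Algebra.trace F E (v i * v i)) * s i ^ 2 := by
    rw [h1]
    refine Finset.sum_nonneg fun σ _ => ?_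
    nlinarith [sq_nonneg (Lf v σ s).re]
  have h3 : 0 < ∑ i, -(algebraMap F S (Algebra.trace F E (v i * v i)) * s i ^ 2) := by
    obtain ⟨i, hi⟩ := Function.ne_iff.1 hs0
    have hiT : i ∈ T := by
      by_contra h
      exact hi (hsT i h)
    refine Finset.sum_pos' (fun j _ => ?_) ⟨i, Finset.mem_univ i, ?_⟩
    · by_cases hj : j ∈ T
      · have := mul_nonneg (neg_nonneg.2 (hT j hj).le) (sq_nonneg (s j))
        linarith
      · rw [hsT j hj]
        simp
    · have h4 : 0 < s i ^ 2 := by
        have : s i ≠ 0 := hi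
        positivity
      have := mul_pos (neg_pos.2 (hT i hiT)) h4
      linarith
  rw [Finset.sum_neg_distrib] at h3
  linarith

end core

/-- Real embeddings of a finite extension exist in one real closed field if they exist in
another one with the same signs. -/
theorem exists_embedding (F E S S' : Type*) [Field F] [CharZero F] [Field E] [Algebra F E]
    [FiniteDimensional F E] [Field S] [IsRealClosed S] [Algebra F S] [Field S'] [IsRealClosed S']
    [Algebra F S'] (h : ∀ x : F, IsSquare (algebraMap F S x) → IsSquare (algebraMap F S' x))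
    (hE : Nonempty (E →ₐ[F] S)) : Nonempty (E →ₐ[F] S') := by
  classical
  obtain ⟨_, _⟩ := exists_order S
  obtain ⟨_, _⟩ := exists_order S'
  have : Invertible (2 : F) := invertibleOfNonzero two_ne_zero
  have hsym : LinearMap.IsSymm (Algebra.traceForm F E) :=
    ⟨fun x y => (Algebra.traceForm_isSymm F (S := E)).eq x y⟩
  obtain ⟨v, hv⟩ := LinearMap.BilinForm.exists_orthogonal_basis hsym
  have hv0 : ∀ i, Algebra.trace F E (v i * v i) ≠ 0 := by
    intro i
    exact LinearMap.BilinForm.iIsOrtho.not_isOrtho_basis_self_of_nondegenerate hv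
      (traceForm_nondegenerate F E) i
  have hv1 : ∀ i j, i ≠ j → Algebra.trace F E (v i * v j) = 0 := fun i j hij => hv hij
  -- real embeddings
  have hyes : ∃ σ : E →ₐ[F] Cx S, cj σ = σ := by
    obtain ⟨τ⟩ := hE
    refine ⟨(IsScalarTower.toAlgHom F S (Cx S)).comp τ, ?_⟩
    ext x <;> simp [cj_apply]
  have hsg : ∀ x : F, x ≠ 0 → 0 < algebraMap F S x → 0 < algebraMap F S' x := by
    intro x hx h0
    have h1 := IsRealClosed.nonneg_iff_isSquare.2 (h x (IsRealClosed.nonneg_iff_isSquare.1 h0.le))
    refine lt_of_le_of_ne h1 (Ne.symm ?_)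
    rwa [Ne, map_eq_zero_iff _ (algebraMap F S').injective]
  let P : Finset (Fin (Module.finrank F E)) := Finset.univ.filter fun i =>
    0 < algebraMap F S (Algebra.trace F E (v i * v i))
  let N : Finset (Fin (Module.finrank F E)) := Finset.univ.filter fun i =>
    algebraMap F S (Algebra.trace F E (v i * v i)) < 0
  have hPN : P ∪ N = Finset.univ := by
    ext i
    simp only [P, N, Finset.mem_union, Finset.mem_filter, Finset.mem_univ, true_and, iff_true]
    have : algebraMap F S (Algebra.trace F E (v i * v i)) ≠ 0 := by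
      rw [Ne, map_eq_zero_iff _ (algebraMap F S).injective]
      exact hv0 i
    rcases lt_trichotomy (algebraMap F S (Algebra.trace F E (v i * v i))) 0 with h | h | h
    · exact Or.inr h
    · exact (this h).elim
    · exact Or.inl h
  have hN := neg_lt rfl v hv1 hyes N (fun i hi => by
    simpa [N] using hi)
  have hcard : Module.finrank F E ≤ P.card + N.card := by
    have h1 := Finset.card_union_le P N
    rwa [hPN, Finset.card_univ, Fintype.card_fin] at h1
  have hno : ∃ σ : E →ₐ[F] Cx S', cj σ = σ := by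
    by_contra hno
    have := pos_le rfl v hv1 hno P (fun i hi => hsg _ (hv0 i) (by simpa [P] using hi))
    omega
  obtain ⟨σ, hσ⟩ := hno
  have him : ∀ x, (σ x).im = 0 := by
    intro x
    have h1 := congrArg QuadraticAlgebra.im (DFunLike.congr_fun hσ x)
    rw [cj_apply, QuadraticAlgebra.im_star] at h1
    linarith
  have hre : ∀ x, algebraMap S' (Cx S') (σ x).re = σ x := by
    intro x
    ext
    · simp
    · simp [him x]
  refine ⟨{ toFun := fun x => (σ x).re
            map_one' := ?_
            map_mul' := ?_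
            map_zero' := ?_
            map_add' := ?_
            commutes' := ?_ }⟩
  · apply (algebraMap S' (Cx S')).injective
    rw [hre, map_one, map_one]
  · intro x y
    apply (algebraMap S' (Cx S')).injective
    rw [hre, map_mul, map_mul, hre, hre]
  · apply (algebraMap S' (Cx S')).injective
    rw [hre, map_zero, map_zero]
  · intro x y
    apply (algebraMap S' (Cx S')).injective
    rw [hre, map_add, map_add, hre, hre]
  · intro x
    apply (algebraMap S' (Cx S')).injective
    rw [hre, AlgHom.commutes, IsScalarTower.algebraMap_apply F S' (Cx S')]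

end RC
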