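import Pool.Agent.Lib.RC.Sgn

/-!
Ultrapowers as algebras, specialisation of finitely many elements.
-/

open Filter

namespace RC

/-- The ultrapower. -/
def Up {I : Type*} (U : Ultrafilter I) (R : Type*) : Type _ := (U : Filter I).Germ R

namespace Up

variable {I : Type*} (U : Ultrafilter I) (R : Type*) [Field R]

noncomputable instance : Field (Up U R) := inferInstanceAs (Field ((U : Filter I).Germ R))

instance [IsRealClosed R] : IsRealClosed (Up U R) := realClosed_germ U R

/-- The class of a family. -/
noncomputable def mk : (I → R) →+* Up U R := Germ.coeRingHom (U : Filter I)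

noncomputable instance : Algebra R (Up U R) := ((mk U R).comp (Pi.constRingHom I R)).toAlgebra

variable {U R}

theorem algebraMap_eq (r : R) : algebraMap R (Up U R) r = mk U R fun _ => r := rfl

theorem mk_surj (x : Up U R) : ∃ f, mk U R f = x := Quotient.exists_rep x

theorem mk_eq {f g : I → R} : mk U R f = mk U R g ↔ ∀ᶠ i in (U : Filter I), f i = g i :=
  Germ.coe_eq

theorem mk_eq_zero {f : I → R} : mk U R f = 0 ↔ ∀ᶠ i in (U : Filter I), f i = 0 := by
  rw [← map_zero (mk U R), mk_eq]
  rfl

theorem aeval_mk {ι : Type*} (f : ι → I → R) (p : MvPolynomial ι R) :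
    MvPolynomial.aeval (fun j => mk U R (f j)) p =
      mk U R fun i => MvPolynomial.aeval (fun j => f j i) p := by
  induction p using MvPolynomial.induction_on with
  | C a =>
    simp only [MvPolynomial.aeval_C, algebraMap_eq]
    rfl
  | add p q hp hq =>
    rw [map_add, hp, hq, ← map_add]
    congr 1
    funext i
    simp
  | mul_X p j hp =>
    rw [map_mul, hp, MvPolynomial.aeval_X, ← map_mul]
    congr 1
    funext i
    simp

/-- Specialisation of finitely many elements of the ultrapower. -/
theorem exists_point {ι : Type*} [Finite ι] (z : ι → Up U R) :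
    ∃ c : ι → R, ∀ p : MvPolynomial ι R, MvPolynomial.aeval z p = 0 →
      MvPolynomial.aeval c p = 0 := by
  choose f hf using fun j => mk_surj (z j)
  obtain ⟨G, hG⟩ := Ideal.fg_of_isNoetherianRing
    (RingHom.ker (MvPolynomial.aeval z : MvPolynomial ι R →ₐ[R] Up U R))
  have h1 : ∀ p ∈ G, ∀ᶠ i in (U : Filter I), MvPolynomial.aeval (fun j => f j i) p = 0 := by
    intro p hp
    have h2 : p ∈ RingHom.ker (MvPolynomial.aeval z : MvPolynomial ι R →ₐ[R] Up U R) := by
      rw [← hG]
      exact Ideal.subset_span hp
    rw [RingHom.mem_ker] at h2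
    have h3 : z = fun j => mk U R (f j) := funext fun j => (hf j).symm
    rw [h3, aeval_mk, mk_eq_zero] at h2
    exact h2
  have h4 : ∀ᶠ i in (U : Filter I), ∀ p ∈ G, MvPolynomial.aeval (fun j => f j i) p = 0 :=
    (Filter.eventually_all_finset G).2 h1
  obtain ⟨i, hi⟩ := h4.exists
  refine ⟨fun j => f j i, fun p hp => ?_⟩
  have h5 : p ∈ Ideal.span (G : Set (MvPolynomial ι R)) := by
    rw [hG, RingHom.mem_ker]
    exact hp
  have h6 : Ideal.span (G : Set (MvPolynomial ι R)) ≤
      RingHom.ker (MvPolynomial.aeval fun j => f j i : MvPolynomial ι R →ₐ[R] R) := by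
    rw [Ideal.span_le]
    intro q hq
    exact hi q hq
  exact h6 h5

end Up

end RC
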